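import Pool.Agent.Helper22.AE.X1

/-!
# S+: the exponents in the large values estimate (AE-X4 for the suprema over the radius and over the centre)

`Bnd` is the bound for the mean of the square function of generation `s`: `8 M^s M^J` products, the factor
`c (x² / M^s + x)` for the supremum over the centre, `1 + c R₀ x / M^(2s)` for the supremum over the radius.
PROOF. `r = log R₀ / log x`, `d = (s+1)/(2m)`, `u = 1/(2m)`, `η = R₀^(-1+e3)`.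
`M^s (x²/M^s + x) ≤ 2 x²`; `1 + c R₀ x / M^(2s) ≤ (1 + c 4^m) x^(r + 1 - 2d + 2u)`; `Dc^J ≤ C x^(J(2-d))`;
`2 rr + 1 ≤ (2 c₂ + 1) R₀^e3 x^(max 0 ((2J-1)d - r))`, `2 rr τ + 1 ≤ (2 c₂ + 1) R₀^e3 x^(max 0 ((2J-2)d - r))`; the exponent of `x` is
at most `3 J u + 2 u - 2 J e1 + e + 2 e3/ε ≤ -e1`.
-/

open Real Set Filter Topology

set_option autoImplicit false

namespace Pool.Agent.Helper42.SP

open Pool.Agent.Helper22.AE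

/-- the bound for the mean of the square function of generation `s` -/
noncomputable def Bnd (c R₀ x η M : ℝ) (s J : ℕ) : ℝ :=
  8 * M ^ s * M ^ J * (c * (x ^ 2 / M ^ s + x)) * (1 + c * R₀ * x / M ^ (2 * s)) *
    (Dc x M (s + 1) ^ J * ((2 * rr J M η (s + 1) + 1) * (2 * rr J M η (s + 1) * (1 / (2 * M ^ (s + 1))) + 1)) +
      Dc x M (s + 1) ^ (2 * J) * exp (-(π / 4) * (R₀ / 2) ^ 2 * η ^ 2))

private theorem thr42 {ε e3 : ℝ} (hε : 0 < ε) (he3 : 0 < e3) (m Jm : ℕ) (c : ℝ) :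
    ∃ R₁ : ℝ, 1 ≤ R₁ ∧ ∀ R₀ : ℝ, R₁ ≤ R₀ → (2 : ℝ) ^ (2 * m) ≤ R₀ ^ ε ∧
      (c * R₀ ^ 2) ^ Jm * exp (-(π / 16) * R₀ ^ (2 * e3)) ≤ 1 := by
  have h1 : ∀ᶠ R : ℝ in atTop, (2 : ℝ) ^ (2 * m) ≤ R ^ ε :=
    (tendsto_rpow_atTop hε).eventually_ge_atTop _
  have h2 : Tendsto (fun y : ℝ => y ^ ((2 * (Jm : ℝ)) / (2 * e3)) * exp (-(π / 16) * y)) atTop (𝓝 0) :=
    tendsto_rpow_mul_exp_neg_mul_atTop_nhds_zero _ _ (by positivity)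
  have h3 : Tendsto (fun R : ℝ => c ^ Jm * ((R ^ (2 * e3)) ^ ((2 * (Jm : ℝ)) / (2 * e3)) *
      exp (-(π / 16) * R ^ (2 * e3)))) atTop (𝓝 (c ^ Jm * 0)) :=
    (h2.comp (tendsto_rpow_atTop (by positivity : 0 < 2 * e3))).const_mul _
  rw [mul_zero] at h3
  have h4 : ∀ᶠ R : ℝ in atTop, c ^ Jm * ((R ^ (2 * e3)) ^ ((2 * (Jm : ℝ)) / (2 * e3)) *
      exp (-(π / 16) * R ^ (2 * e3))) < 1 := h3.eventually_lt_const one_pos
  obtain ⟨R₁, hR⟩ := eventually_atTop.1 ((h1.and h4).and (eventually_ge_atTop (1 : ℝ)))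
  refine ⟨max 1 R₁, le_max_left _ _, fun R hRR => ?_⟩
  obtain ⟨⟨ha, hb⟩, hc⟩ := hR R ((le_max_right _ _).trans hRR)
  refine ⟨ha, ?_⟩
  have hR0 : 0 ≤ R := by linarith
  have he : (R ^ (2 * e3)) ^ ((2 * (Jm : ℝ)) / (2 * e3)) = (R ^ 2) ^ Jm := by
    rw [← rpow_mul hR0, mul_div_cancel₀ _ (by positivity : (2 * e3) ≠ 0), ← pow_mul, ← rpow_natCast]
    push_cast
    rfl
  rw [he] at hb
  rw [mul_pow, mul_assoc]
  exact hb.le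

/-- one factor `2 rr + 1` -/
private theorem fac42 {x c₂ Q t r y : ℝ} (hx : 1 ≤ x) (hc : 0 ≤ c₂) (hQ : 1 ≤ Q) (hy : y ≤ c₂ * (Q * x ^ (t - r))) :
    2 * y + 1 ≤ (2 * c₂ + 1) * (Q * x ^ (max 0 (t - r))) := by
  have hx0 : 0 < x := by linarith
  have h1 : x ^ (t - r) ≤ x ^ (max 0 (t - r)) := rpow_le_rpow_of_exponent_le hx (le_max_right _ _)
  have h2 : 1 ≤ x ^ (max 0 (t - r)) := one_le_rpow hx (le_max_left _ _)
  have h3 : c₂ * (Q * x ^ (t - r)) ≤ c₂ * (Q * x ^ (max 0 (t - r))) := by gcongr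
  have h4 : 1 ≤ Q * x ^ (max 0 (t - r)) := one_le_mul_of_one_le_of_one_le hQ h2
  calc 2 * y + 1 ≤ 2 * (c₂ * (Q * x ^ (max 0 (t - r)))) + Q * x ^ (max 0 (t - r)) := by linarith
    _ = _ := by ring

theorem final_bound {ε e e1 e3 : ℝ} (hε : 0 < ε) (he1 : 0 < e1)
    (he' : 2 * e ≤ e1) (he3 : 0 < e3) (he3' : 8 * e3 ≤ e1 * ε) {m : ℕ} (hm : 1 ≤ m) (hm' : 3 / e1 ≤ m)
    (Jm : ℕ) {c : ℝ} (hc : 0 ≤ c) :
    ∃ C R₁ : ℝ, 0 < C ∧ 1 ≤ R₁ ∧ ∀ R₀ : ℝ, R₁ ≤ R₀ → ∀ x : ℝ, R₀ ^ ε ≤ x → x ≤ R₀ → ∀ s < m,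
      ∀ J : ℕ, 2 ≤ J → J ≤ Jm →
      log R₀ / log x + 3 - 2 * (((s : ℝ) + 1) / (2 * m)) +
        max 0 ((2 * (J : ℝ) - 1) * (((s : ℝ) + 1) / (2 * m)) - log R₀ / log x) +
        max 0 ((2 * (J : ℝ) - 2) * (((s : ℝ) + 1) / (2 * m)) - log R₀ / log x) ≤
          J * (1 + ((s : ℝ) + 1) / (2 * m)) + e →
      ∀ M : ℕ, M = ⌊x ^ (1 / (2 * (m : ℝ)))⌋₊ →
        (2 * (8 * (4 * (Jm : ℝ)) ^ m * (2 * M)) * m * 20 / x ^ (3 / 2 + e1)) ^ (2 * J) *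
          (20 * Bnd c R₀ x (R₀ ^ (-1 + e3)) M s J) ≤ C * x ^ (-e1) := by
  obtain ⟨a, ha⟩ : ∃ a : ℝ, a = 2 * (8 * (4 * (Jm : ℝ)) ^ m * 2) * m * 20 + 1 := ⟨_, rfl⟩
  obtain ⟨c₁, hc₁⟩ : ∃ c : ℝ, c = 10 * (5 * (2 : ℝ) ^ m + 1) := ⟨_, rfl⟩
  obtain ⟨c₂, hc₂⟩ : ∃ c : ℝ, c = 25 * (Jm : ℝ) * 4 ^ Jm * 2 ^ (2 * Jm) := ⟨_, rfl⟩
  obtain ⟨c₃, hc₃⟩ : ∃ b : ℝ, b = 1 + c * 4 ^ m := ⟨_, rfl⟩
  have ha1 : 1 ≤ a := by rw [ha]; have : (0 : ℝ) ≤ 2 * (8 * (4 * (Jm : ℝ)) ^ m * 2) * m * 20 := by positivity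
                         linarith
  have hc₁1 : 1 ≤ c₁ := by
    have : (0 : ℝ) ≤ (2 : ℝ) ^ m := by positivity
    rw [hc₁]; linarith
  have hc₂0 : 0 ≤ c₂ := by rw [hc₂]; positivity
  have hc₃1 : 1 ≤ c₃ := by
    have : (0 : ℝ) ≤ c * 4 ^ m := by positivity
    rw [hc₃]; linarith
  obtain ⟨R₁, hR₁, hthr⟩ := thr42 hε he3 m Jm c₁
  refine ⟨a ^ (2 * Jm) * (20 * 16 * (c + 1) * c₃ * (2 * c₁ ^ Jm * (2 * c₂ + 1) ^ 2)), R₁, by positivity, hR₁, ?_⟩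
  intro R₀ hR x hx1 hx2 s hs J hJ hJm H1 M hM
  obtain ⟨t1, t2⟩ := hthr R₀ hR
  have hR0 : 0 < R₀ := by linarith
  have hR1 : 1 ≤ R₀ := by linarith
  have hm0 : (0 : ℝ) < m := by exact_mod_cast hm
  have hxb : (2 : ℝ) ^ (2 * m) ≤ x := t1.trans hx1
  have hx2' : (2 : ℝ) ≤ x := by
    calc (2 : ℝ) = 2 ^ 1 := by norm_num
      _ ≤ 2 ^ (2 * m) := pow_le_pow_right₀ (by norm_num) (by omega)
      _ ≤ x := hxb
  have hx : 1 ≤ x := by linarith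
  have hx0 : 0 < x := by linarith
  have hlogx : 0 < log x := log_pos (by linarith)
  obtain ⟨r, hr⟩ : ∃ r : ℝ, r = log R₀ / log x := ⟨_, rfl⟩
  obtain ⟨d, hd⟩ : ∃ d : ℝ, d = ((s : ℝ) + 1) / (2 * m) := ⟨_, rfl⟩
  obtain ⟨u, hu⟩ : ∃ u : ℝ, u = 1 / (2 * (m : ℝ)) := ⟨_, rfl⟩
  rw [← hr, ← hd] at H1
  have hRx : x ^ r = R₀ := by
    rw [hr, rpow_def_of_pos hx0, mul_div_cancel₀ _ hlogx.ne', exp_log hR0]
  have hr1 : 1 ≤ r := by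
    rw [hr, le_div_iff₀ hlogx, one_mul]
    exact log_le_log hx0 hx2
  have hu0 : 0 ≤ u := by rw [hu]; positivity
  have hsd : (s : ℝ) / (2 * m) = d - u := by rw [hd, hu]; ring
  have hs1 : (s : ℝ) + 1 ≤ m := by exact_mod_cast hs
  have hd2 : d ≤ 1 / 2 := by
    rw [hd, div_le_iff₀ (by linarith)]
    linarith
  obtain ⟨M2, -, -⟩ := floor_pow hm hxb hM 0
  have hM0 : (0 : ℝ) ≤ M := Nat.cast_nonneg _
  have hMp : (0 : ℝ) < M := by exact_mod_cast (by omega : 0 < M)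
  have hMsp : (0 : ℝ) < (M : ℝ) ^ s := by positivity
  have Ms : (M : ℝ) ^ s ≤ x := by
    refine (floor_pow hm hxb hM s).2.1.trans ?_
    rw [hsd]
    calc x ^ (d - u) ≤ x ^ (1 : ℝ) := rpow_le_rpow_of_exponent_le hx (by linarith)
      _ = x := rpow_one x
  have Ms1 : (M : ℝ) ^ (s + 1) ≤ x ^ d := by
    refine (floor_pow hm hxb hM (s + 1)).2.1.trans (le_of_eq ?_)
    rw [hd]; push_cast; rfl
  have M1 : (M : ℝ) ≤ x ^ u := by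
    have := (floor_pow hm hxb hM 1).2.1
    rw [pow_one] at this
    rw [hu]; exact_mod_cast this
  have Ms2 : x ^ (2 * (d - u)) ≤ 4 ^ m * (M : ℝ) ^ (2 * s) := by
    have h1 := (floor_pow hm hxb hM s).2.2
    rw [hsd] at h1
    have h2 := pow_le_pow_left₀ (rpow_nonneg hx0.le _) h1 2
    have h3 : (x ^ (d - u)) ^ 2 = x ^ (2 * (d - u)) := by
      rw [← rpow_natCast, ← rpow_mul hx0.le]
      congr 1; push_cast; ring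
    rw [h3] at h2
    refine h2.trans ?_
    have h4 : (2 ^ s * (M : ℝ) ^ s) ^ 2 = 4 ^ s * (M : ℝ) ^ (2 * s) := by
      rw [mul_pow, ← pow_mul, ← pow_mul, mul_comm s 2, pow_mul]
      norm_num
    rw [h4]
    gcongr
    · norm_num
  -- the supremum over the centre
  have G1 : (M : ℝ) ^ s * (c * (x ^ 2 / (M : ℝ) ^ s + x)) ≤ 2 * (c + 1) * x ^ 2 := by
    have h1 : (M : ℝ) ^ s * (c * (x ^ 2 / (M : ℝ) ^ s + x)) = c * (x ^ 2 + x * (M : ℝ) ^ s) := by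
      field_simp
    rw [h1]
    have h2 : x * (M : ℝ) ^ s ≤ x * x := by gcongr
    have h3 : c * (x ^ 2 + x * (M : ℝ) ^ s) ≤ c * (x ^ 2 + x * x) := by gcongr
    have h4 : (0 : ℝ) ≤ x ^ 2 := by positivity
    nlinarith
  -- the supremum over the radius
  have G2 : 1 + c * R₀ * x / (M : ℝ) ^ (2 * s) ≤ c₃ * x ^ (r + 1 - 2 * (d - u)) := by
    have h1 : R₀ * x / (M : ℝ) ^ (2 * s) ≤ 4 ^ m * x ^ (r + 1 - 2 * (d - u)) := by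
      rw [div_le_iff₀ (by positivity)]
      have e0 : R₀ * x = x ^ (r + 1 - 2 * (d - u)) * x ^ (2 * (d - u)) := by
        rw [← rpow_add hx0, ← hRx]
        nth_rewrite 2 [← rpow_one x]
        rw [← rpow_add hx0]
        congr 1; ring
      rw [e0]
      calc x ^ (r + 1 - 2 * (d - u)) * x ^ (2 * (d - u)) ≤
          x ^ (r + 1 - 2 * (d - u)) * (4 ^ m * (M : ℝ) ^ (2 * s)) := by gcongr
        _ = _ := by ring
    have h2 : 1 ≤ x ^ (r + 1 - 2 * (d - u)) := one_le_rpow hx (by linarith)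
    have h3 : c * R₀ * x / (M : ℝ) ^ (2 * s) = c * (R₀ * x / (M : ℝ) ^ (2 * s)) := by ring
    rw [h3, hc₃]
    calc 1 + c * (R₀ * x / (M : ℝ) ^ (2 * s)) ≤
        x ^ (r + 1 - 2 * (d - u)) + c * (4 ^ m * x ^ (r + 1 - 2 * (d - u))) := by gcongr
      _ = _ := by ring
  -- the arc count
  have D1 : Dc x M (s + 1) ≤ c₁ * x ^ (2 - d) := by
    have := Dc_le hm hxb hM (t := s + 1) (by omega)
    rw [hc₁, hd]; push_cast at this; exact this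
  have D0 : 1 ≤ Dc x M (s + 1) := one_le_Dc hx hM0 _
  have hd0 : 0 ≤ d := by rw [hd]; positivity
  have D2 : Dc x M (s + 1) ≤ c₁ * R₀ ^ 2 := by
    refine D1.trans ?_
    have : x ^ (2 - d) ≤ x ^ (2 : ℝ) := rpow_le_rpow_of_exponent_le hx (by linarith)
    have h' : x ^ (2 : ℝ) = x ^ 2 := by exact_mod_cast rpow_natCast x 2
    rw [h'] at this
    calc c₁ * x ^ (2 - d) ≤ c₁ * x ^ 2 := by gcongr
      _ ≤ c₁ * R₀ ^ 2 := by gcongr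
  have DJ : Dc x M (s + 1) ^ J ≤ c₁ ^ Jm * x ^ ((J : ℝ) * (2 - d)) := by
    calc Dc x M (s + 1) ^ J ≤ (c₁ * x ^ (2 - d)) ^ J := by gcongr
      _ = c₁ ^ J * x ^ ((J : ℝ) * (2 - d)) := by
          rw [mul_pow, ← rpow_natCast (x ^ (2 - d)) J, ← rpow_mul hx0.le, mul_comm (2 - d)]
      _ ≤ c₁ ^ Jm * x ^ ((J : ℝ) * (2 - d)) := by
          gcongr
  have hexp : R₀ ^ 2 * (R₀ ^ (-1 + e3)) ^ 2 = R₀ ^ (2 * e3) := by
    rw [← mul_pow, ← rpow_natCast, ← rpow_one_add' hR0.le (by linarith), ← rpow_mul hR0.le]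
    congr 1; push_cast; ring
  have hexp2 : -(π / 4) * (R₀ / 2) ^ 2 * (R₀ ^ (-1 + e3)) ^ 2 = -(π / 16) * R₀ ^ (2 * e3) := by
    rw [← hexp]; ring
  have DE : Dc x M (s + 1) ^ J * exp (-(π / 4) * (R₀ / 2) ^ 2 * (R₀ ^ (-1 + e3)) ^ 2) ≤ 1 := by
    rw [hexp2]
    refine le_trans ?_ t2
    gcongr
    calc Dc x M (s + 1) ^ J ≤ (c₁ * R₀ ^ 2) ^ J := by gcongr
      _ ≤ (c₁ * R₀ ^ 2) ^ Jm := by
          exact pow_le_pow_right₀ (one_le_mul_of_one_le_of_one_le hc₁1 (one_le_pow₀ hR1)) hJm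
  -- rr
  have hη : 0 < R₀ ^ (-1 + e3) := rpow_pos_of_pos hR0 _
  have hrr0 : 0 ≤ rr J M (R₀ ^ (-1 + e3)) (s + 1) := by
    unfold rr; positivity
  have e1' : rr J M (R₀ ^ (-1 + e3)) (s + 1) =
      25 * J * 4 ^ J * R₀ ^ (-1 + e3) * (2 * (M : ℝ) ^ (s + 1)) ^ (2 * J - 1) := by
    unfold rr
    rw [one_div, inv_pow, div_inv_eq_mul]
  have hRe : R₀ ^ (-1 + e3) = R₀ ^ e3 * x ^ (-r) := by
    have : x ^ (-r) = R₀ ^ (-1 : ℝ) := by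
      rw [← hRx, ← rpow_mul hx0.le]
      congr 1; ring
    rw [this, ← rpow_add hR0]
    congr 1; ring
  have gen : ∀ i : ℕ, i ≤ 2 * Jm → (2 * (M : ℝ) ^ (s + 1)) ^ i ≤ 2 ^ (2 * Jm) * x ^ ((i : ℝ) * d) := by
    intro i hi
    calc (2 * (M : ℝ) ^ (s + 1)) ^ i ≤ (2 * x ^ d) ^ i := by gcongr
      _ = 2 ^ i * x ^ ((i : ℝ) * d) := by
          rw [mul_pow, ← rpow_natCast (x ^ d), ← rpow_mul hx0.le, mul_comm d]
      _ ≤ _ := by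
          gcongr
          norm_num
  have gen2 : ∀ i : ℕ, i ≤ 2 * Jm → 25 * (J : ℝ) * 4 ^ J * R₀ ^ (-1 + e3) * (2 * (M : ℝ) ^ (s + 1)) ^ i ≤
      c₂ * (R₀ ^ e3 * x ^ ((i : ℝ) * d - r)) := by
    intro i hi
    have e4 : x ^ ((i : ℝ) * d - r) = x ^ ((i : ℝ) * d) * x ^ (-r) := by
      rw [← rpow_add hx0]
      congr 1
    rw [hRe, hc₂, e4]
    calc 25 * (J : ℝ) * 4 ^ J * (R₀ ^ e3 * x ^ (-r)) * (2 * (M : ℝ) ^ (s + 1)) ^ i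
        ≤ 25 * (Jm : ℝ) * 4 ^ Jm * (R₀ ^ e3 * x ^ (-r)) * (2 ^ (2 * Jm) * x ^ ((i : ℝ) * d)) := by
          gcongr
          · norm_num
          · exact gen i hi
      _ = _ := by ring
  have hrr : rr J M (R₀ ^ (-1 + e3)) (s + 1) ≤ c₂ * (R₀ ^ e3 * x ^ ((2 * (J : ℝ) - 1) * d - r)) := by
    rw [e1']
    have h := gen2 (2 * J - 1) (by omega)
    have e5 : (((2 * J - 1 : ℕ) : ℝ)) = 2 * (J : ℝ) - 1 := by
      rw [Nat.cast_sub (by omega)]; push_cast; ring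
    rw [e5] at h
    exact h
  have hrr' : rr J M (R₀ ^ (-1 + e3)) (s + 1) * (1 / (2 * (M : ℝ) ^ (s + 1))) ≤
      c₂ * (R₀ ^ e3 * x ^ ((2 * (J : ℝ) - 2) * d - r)) := by
    rw [e1']
    have h := gen2 (2 * J - 2) (by omega)
    have e5 : (((2 * J - 2 : ℕ) : ℝ)) = 2 * (J : ℝ) - 2 := by
      rw [Nat.cast_sub (by omega)]; push_cast; ring
    rw [e5] at h
    refine le_trans (le_of_eq ?_) h
    have e6 : 2 * J - 1 = (2 * J - 2) + 1 := by omega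
    rw [e6, pow_succ]
    have : (2 * (M : ℝ) ^ (s + 1)) ≠ 0 := by positivity
    field_simp
  -- first factor
  have F1 : (2 * (8 * (4 * (Jm : ℝ)) ^ m * (2 * M)) * m * 20 / x ^ (3 / 2 + e1)) ^ (2 * J) ≤
      a ^ (2 * Jm) * x ^ (2 * (J : ℝ) * u - 3 * J - 2 * J * e1) := by
    have h1 : 2 * (8 * (4 * (Jm : ℝ)) ^ m * (2 * M)) * m * 20 / x ^ (3 / 2 + e1) ≤
        a * x ^ (u - (3 / 2 + e1)) := by
      rw [rpow_sub hx0, ← mul_div_assoc]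
      refine div_le_div_of_nonneg_right ?_ (rpow_pos_of_pos hx0 _).le
      calc 2 * (8 * (4 * (Jm : ℝ)) ^ m * (2 * M)) * m * 20 =
          (2 * (8 * (4 * (Jm : ℝ)) ^ m * 2) * m * 20) * M := by ring
        _ ≤ a * x ^ u := by
            gcongr
            rw [ha]; linarith
    calc _ ≤ (a * x ^ (u - (3 / 2 + e1))) ^ (2 * J) := by gcongr
      _ = a ^ (2 * J) * x ^ (2 * (J : ℝ) * u - 3 * J - 2 * J * e1) := by
          rw [mul_pow, ← rpow_natCast (x ^ (u - (3 / 2 + e1))), ← rpow_mul hx0.le]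
          congr 2; push_cast; ring
      _ ≤ _ := by
          gcongr
  -- second factor
  have hQ : 1 ≤ R₀ ^ e3 := one_le_rpow hR1 he3.le
  have hDJ0 : 0 ≤ Dc x M (s + 1) ^ J := by positivity
  obtain ⟨p1, hp1⟩ : ∃ p : ℝ, p = max 0 ((2 * (J : ℝ) - 1) * d - r) := ⟨_, rfl⟩
  obtain ⟨p2, hp2⟩ : ∃ p : ℝ, p = max 0 ((2 * (J : ℝ) - 2) * d - r) := ⟨_, rfl⟩
  rw [← hp1, ← hp2] at H1
  have K1 := fac42 (t := (2 * (J : ℝ) - 1) * d) (r := r) hx hc₂0 hQ hrr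
  have K2 := fac42 (t := (2 * (J : ℝ) - 2) * d) (r := r) hx hc₂0 hQ hrr'
  rw [← hp1] at K1
  rw [← hp2] at K2
  have hp10 : 0 ≤ p1 := by rw [hp1]; exact le_max_left _ _
  have hp20 : 0 ≤ p2 := by rw [hp2]; exact le_max_left _ _
  have hrr'0 : 0 ≤ rr J M (R₀ ^ (-1 + e3)) (s + 1) * (1 / (2 * (M : ℝ) ^ (s + 1))) := by positivity
  have F2 : Dc x M (s + 1) ^ J * ((2 * rr J M (R₀ ^ (-1 + e3)) (s + 1) + 1) *
        (2 * rr J M (R₀ ^ (-1 + e3)) (s + 1) * (1 / (2 * (M : ℝ) ^ (s + 1))) + 1)) +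
      Dc x M (s + 1) ^ (2 * J) * exp (-(π / 4) * (R₀ / 2) ^ 2 * (R₀ ^ (-1 + e3)) ^ 2) ≤
      2 * (c₁ ^ Jm * x ^ ((J : ℝ) * (2 - d))) * ((2 * c₂ + 1) ^ 2 * (R₀ ^ (2 * e3) * (x ^ p1 * x ^ p2))) := by
    have e7 : 2 * rr J M (R₀ ^ (-1 + e3)) (s + 1) * (1 / (2 * (M : ℝ) ^ (s + 1))) + 1 =
        2 * (rr J M (R₀ ^ (-1 + e3)) (s + 1) * (1 / (2 * (M : ℝ) ^ (s + 1)))) + 1 := by ring
    rw [e7]
    obtain ⟨A, hA⟩ : ∃ A : ℝ, A = 2 * rr J M (R₀ ^ (-1 + e3)) (s + 1) + 1 := ⟨_, rfl⟩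
    obtain ⟨B, hB⟩ : ∃ B : ℝ, B = 2 * (rr J M (R₀ ^ (-1 + e3)) (s + 1) * (1 / (2 * (M : ℝ) ^ (s + 1)))) + 1 := ⟨_, rfl⟩
    rw [← hA, ← hB]
    rw [← hA] at K1
    rw [← hB] at K2
    have hA1 : 1 ≤ A := by rw [hA]; linarith
    have hB1 : 1 ≤ B := by rw [hB]; linarith
    have h1 : Dc x M (s + 1) ^ (2 * J) * exp (-(π / 4) * (R₀ / 2) ^ 2 * (R₀ ^ (-1 + e3)) ^ 2) ≤
        Dc x M (s + 1) ^ J * (A * B) := by
      rw [two_mul J, pow_add, mul_assoc]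
      refine mul_le_mul_of_nonneg_left (DE.trans ?_) hDJ0
      exact one_le_mul_of_one_le_of_one_le hA1 hB1
    have h2 : A * B ≤ (2 * c₂ + 1) ^ 2 * (R₀ ^ (2 * e3) * (x ^ p1 * x ^ p2)) := by
      have h3 : A * B ≤ ((2 * c₂ + 1) * (R₀ ^ e3 * x ^ p1)) * ((2 * c₂ + 1) * (R₀ ^ e3 * x ^ p2)) :=
        mul_le_mul K1 K2 (by linarith) (by positivity)
      refine h3.trans (le_of_eq ?_)
      have h4 : R₀ ^ (2 * e3) = R₀ ^ e3 * R₀ ^ e3 := by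
        rw [← rpow_add hR0]; congr 1; ring
      rw [h4]; ring
    calc Dc x M (s + 1) ^ J * (A * B) +
        Dc x M (s + 1) ^ (2 * J) * exp (-(π / 4) * (R₀ / 2) ^ 2 * (R₀ ^ (-1 + e3)) ^ 2) ≤
        2 * Dc x M (s + 1) ^ J * (A * B) := by linarith
      _ ≤ _ := by gcongr
  have MJ : (M : ℝ) ^ J ≤ x ^ ((J : ℝ) * u) := by
    calc (M : ℝ) ^ J ≤ (x ^ u) ^ J := by gcongr
      _ = _ := by rw [← rpow_natCast, ← rpow_mul hx0.le, mul_comm]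
  have hJr : (2 : ℝ) ≤ J := by exact_mod_cast hJ
  -- assembly
  have hB : Bnd c R₀ x (R₀ ^ (-1 + e3)) M s J ≤ 8 * (2 * (c + 1) * x ^ 2) * x ^ ((J : ℝ) * u) *
      (c₃ * x ^ (r + 1 - 2 * (d - u))) * (2 * (c₁ ^ Jm * x ^ ((J : ℝ) * (2 - d))) *
        ((2 * c₂ + 1) ^ 2 * (R₀ ^ (2 * e3) * (x ^ p1 * x ^ p2)))) := by
    unfold Bnd
    have e8 : 8 * (M : ℝ) ^ s * (M : ℝ) ^ J * (c * (x ^ 2 / (M : ℝ) ^ s + x)) =
        8 * ((M : ℝ) ^ s * (c * (x ^ 2 / (M : ℝ) ^ s + x))) * (M : ℝ) ^ J := by ring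
    rw [e8]
    gcongr
  have e9 : x ^ 2 = x ^ (2 : ℝ) := by exact_mod_cast (rpow_natCast x 2).symm
  have g2 : R₀ ^ (2 * e3) ≤ x ^ (2 * e3 / ε) := by
    calc R₀ ^ (2 * e3) = (R₀ ^ ε) ^ (2 * e3 / ε) := by
          rw [← rpow_mul hR0.le, mul_div_cancel₀ _ hε.ne']
      _ ≤ _ := by gcongr
  obtain ⟨E, hE⟩ : ∃ E : ℝ, E = (2 * (J : ℝ) * u - 3 * J - 2 * J * e1) + 2 + (J : ℝ) * u + (r + 1 - 2 * (d - u)) +
      (J : ℝ) * (2 - d) + 2 * e3 / ε + p1 + p2 := ⟨_, rfl⟩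
  have hE1 : E ≤ -e1 := by
    have q1 : 2 * e3 / ε ≤ e1 / 4 := by
      rw [div_le_iff₀ hε]; linarith
    have q2 : 3 * u ≤ e1 / 2 := by
      rw [hu]
      rw [div_le_iff₀ he1] at hm'
      rw [← mul_div_assoc, mul_one, div_le_iff₀ (by positivity)]
      linarith
    have q3 : 3 * (J : ℝ) * u ≤ J * (e1 / 2) := by
      calc 3 * (J : ℝ) * u = J * (3 * u) := by ring
        _ ≤ _ := by gcongr
    have q4 : 2 * e1 ≤ J * e1 := by gcongr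
    rw [hE]
    linarith
  calc (2 * (8 * (4 * (Jm : ℝ)) ^ m * (2 * M)) * m * 20 / x ^ (3 / 2 + e1)) ^ (2 * J) *
        (20 * Bnd c R₀ x (R₀ ^ (-1 + e3)) M s J)
      ≤ a ^ (2 * Jm) * x ^ (2 * (J : ℝ) * u - 3 * J - 2 * J * e1) * (20 * (8 * (2 * (c + 1) * x ^ (2 : ℝ)) *
        x ^ ((J : ℝ) * u) * (c₃ * x ^ (r + 1 - 2 * (d - u))) * (2 * (c₁ ^ Jm * x ^ ((J : ℝ) * (2 - d))) *
        ((2 * c₂ + 1) ^ 2 * (x ^ (2 * e3 / ε) * (x ^ p1 * x ^ p2)))))) := by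
        rw [e9] at hB
        have hB' := hB.trans (show _ ≤ 8 * (2 * (c + 1) * x ^ (2 : ℝ)) * x ^ ((J : ℝ) * u) *
          (c₃ * x ^ (r + 1 - 2 * (d - u))) * (2 * (c₁ ^ Jm * x ^ ((J : ℝ) * (2 - d))) *
          ((2 * c₂ + 1) ^ 2 * (x ^ (2 * e3 / ε) * (x ^ p1 * x ^ p2)))) by gcongr)
        have hB0 : 0 ≤ Bnd c R₀ x (R₀ ^ (-1 + e3)) M s J := by
          unfold Bnd
          positivity
        gcongr
    _ = a ^ (2 * Jm) * (20 * 16 * (c + 1) * c₃ * (2 * c₁ ^ Jm * (2 * c₂ + 1) ^ 2)) * x ^ E := by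
        rw [hE]
        simp only [rpow_add hx0]
        ring
    _ ≤ _ := by
        refine mul_le_mul_of_nonneg_left (rpow_le_rpow_of_exponent_le hx hE1) (by positivity)

end Pool.Agent.Helper42.SP
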