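import Pool.Agent.Helper3.SP.Defs

namespace Pool.Agent.Helper3.SP

open Cardinal Set Order

theorem bdd_of_lt_reg {c : Cardinal.{0}} (hc : c.IsRegular) (s : Set c.ord.ToType) (hs : #s < c) :
    ∃ m, ∀ a ∈ s, a < m := by
  by_contra hcon
  push Not at hcon
  have h1 : IsCofinal s := hcon
  have h2 := Order.cof_le h1
  rw [Ordinal.cof_toType, hc.cof_ord] at h2
  exact absurd hs (not_lt.2 h2)

theorem hyp_toType (κ : Cardinal.{0}) (hκ : ℵ₀ < κ) (hreg : κ.IsRegular)
    (hpow : ∀ c < κ, 2 ^ c < κ) : Hyp κ.ord.ToType (Order.succ κ).ord.ToType := by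
  have hA : #κ.ord.ToType = κ := mk_ord_toType κ
  have hL : #(Order.succ κ).ord.ToType = Order.succ κ := mk_ord_toType _
  have hregL : (Order.succ κ).IsRegular := isRegular_succ hκ.le
  refine ⟨inferInstance, inferInstance, ?_, ?_, ?_, ?_, ?_, ?_, ?_, ?_⟩
  · rw [hA]; exact hreg
  · rw [hA]; exact hκ
  · rw [hA]; exact hpow
  · intro m
    rw [hA]
    exact mk_Iio_toType_ord_lt m
  · intro s hs
    rw [hA] at hs
    exact bdd_of_lt_reg hreg s hs
  · rw [hA, hL]
  · intro m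
    rw [hA]
    exact Order.lt_succ_iff.1 (mk_Iio_toType_ord_lt m)
  · intro s hs
    rw [hA] at hs
    exact bdd_of_lt_reg hregL s (Order.lt_succ_iff.2 hs)

end Pool.Agent.Helper3.SP
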