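import Mathlib

/-!
# S+: the choice of `J`

`f (J) = J (1 + d) - (r + 3 - 2 d) - ((2 J - 1) d - r)₊ - ((2 J - 2) d - r)₊ ≥ - e` and `(2 J - 3) d ≤ r - e`.
-/

set_option autoImplicit false

namespace Pool.Agent.Helper42.SP

theorem choose_J {r d e : ℝ} (he : 0 ≤ e) (he1 : e ≤ 1 / 10) (hr : 2 - e ≤ r) (hd : 0 < d) (hd1 : d ≤ 1 / 2) :
    ∃ J : ℕ, 3 ≤ J ∧ (J : ℝ) ≤ r + 4 ∧ (2 * (J : ℝ) - 3) * d ≤ r - e ∧
      r + 3 - 2 * d + max 0 ((2 * (J : ℝ) - 1) * d - r) + max 0 ((2 * (J : ℝ) - 2) * d - r) ≤ J * (1 + d) + e := by
  by_cases hA : r ≤ 5 * d + e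
  · refine ⟨3, by norm_num, by push_cast; linarith, by push_cast; linarith, ?_⟩
    push_cast
    rcases le_total (5 * d) r with h1 | h1
    · rw [max_eq_left (by linarith), max_eq_left (by linarith)]
      linarith
    · rcases le_total (4 * d) r with h2 | h2
      · rw [max_eq_right (by linarith), max_eq_left (by linarith)]
        linarith
      · rw [max_eq_right (by linarith), max_eq_right (by linarith)]
        linarith
  · push Not at hA
    by_cases hB : r ≤ 6 * d
    · refine ⟨4, by norm_num, by push_cast; linarith, by push_cast; linarith, ?_⟩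
      push_cast
      rw [max_eq_right (by linarith), max_eq_right (by linarith)]
      linarith
    · push Not at hB
      obtain ⟨m, hm⟩ : ∃ m : ℕ, m = ⌈r⌉₊ := ⟨_, rfl⟩
      have hr0 : 0 ≤ r := by linarith
      have hm1 : r ≤ m := by rw [hm]; exact Nat.le_ceil r
      have hm2 : (m : ℝ) < r + 1 := by rw [hm]; exact Nat.ceil_lt_add_one hr0
      by_cases hC : (2 * ((m + 3 : ℕ) : ℝ) - 1) * d ≤ r - e
      · refine ⟨m + 3, by omega, by push_cast; linarith, ?_, ?_⟩
        · push_cast at hC ⊢
          nlinarith
        · push_cast at hC ⊢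
          rw [max_eq_left (by linarith), max_eq_left (by nlinarith)]
          nlinarith
      · push Not at hC
        push_cast at hC
        -- `d ≥ e`
        have hde : e ≤ d := by
          by_contra hcon
          push Not at hcon
          have h1 : (2 * ((m : ℝ) + 3) - 1) * d ≤ (2 * ((m : ℝ) + 3) - 1) * (1 / 10) :=
            mul_le_mul_of_nonneg_left (by linarith) (by linarith)
          linarith
        obtain ⟨N, hN⟩ : ∃ N : ℕ, N = ⌊r / (2 * d)⌋₊ := ⟨_, rfl⟩
        have hx0 : 0 ≤ r / (2 * d) := by positivity
        have hN1 : (N : ℝ) * (2 * d) ≤ r := by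
          have := Nat.floor_le hx0
          rw [← hN] at this
          rwa [le_div_iff₀ (by linarith)] at this
        have hN2 : r < ((N : ℝ) + 1) * (2 * d) := by
          have := Nat.lt_floor_add_one (r / (2 * d))
          rw [← hN] at this
          rwa [div_lt_iff₀ (by linarith)] at this
        have hN3 : 3 ≤ N := by
          rw [hN]
          refine Nat.le_floor ?_
          rw [le_div_iff₀ (by linarith)]
          push_cast
          linarith
        have hN3' : (3 : ℝ) ≤ N := by exact_mod_cast hN3
        have hNm : N < m + 3 := by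
          by_contra hcon
          push Not at hcon
          have h1 : ((m : ℝ) + 3) ≤ N := by exact_mod_cast hcon
          have h2 : ((m : ℝ) + 3) * (2 * d) ≤ N * (2 * d) := mul_le_mul_of_nonneg_right h1 (by linarith)
          nlinarith
        have hNm' : (N : ℝ) + 1 ≤ m + 3 := by exact_mod_cast hNm
        refine ⟨N + 1, by omega, by push_cast; linarith, ?_, ?_⟩
        · push_cast
          nlinarith
        · push_cast
          rw [max_eq_left (a := (0 : ℝ)) (b := (2 * ((N : ℝ) + 1) - 2) * d - r) (by linarith)]
          rcases le_total 0 ((2 * ((N : ℝ) + 1) - 1) * d - r) with h1 | h1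
          · rw [max_eq_right h1]
            nlinarith
          · rw [max_eq_left h1]
            nlinarith

end Pool.Agent.Helper42.SP
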